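import Pool.Agent.L0h42.CL.Stm

/-! # Project CL, module W1: the sum of the minima -/

set_option autoImplicit false

namespace Pool.Agent.L0h95.CL

open Finset
open Pool.Agent.L0h42.CL

theorem nd_le (x : ℝ) (n : ℤ) : nd x ≤ |x - n| := round_le x n

theorem mn_le_of {V : ℕ} (hV : 1 ≤ V) {x c : ℝ} (hc : 0 < c) (h : c ≤ nd x) : mn V x ≤ 1 / c := by
  unfold mn
  have hV' : (0 : ℝ) < V := by exact_mod_cast hV
  rw [div_le_div_iff₀ (lt_of_lt_of_le one_pos (le_max_left _ _)) hc, one_mul]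
  calc (V : ℝ) * c ≤ V * nd x := by gcongr
    _ ≤ max 1 (V * nd x) := le_max_right _ _

theorem mn_le_V (V : ℕ) (x : ℝ) : mn V x ≤ V := by
  unfold mn
  exact div_le_self (Nat.cast_nonneg _) (le_max_left _ _)

theorem nonmult {V : ℕ} {β : ℝ} {b : ℤ} {q : ℕ} (hq : 1 ≤ q) (hV : 1 ≤ V)
    (hδ : |β - b / q| ≤ 1 / ((2 * V + 1) * q)) (j : ℕ) (hjV : j ≤ V)
    (hj : ¬ (q : ℤ) ∣ j * b) :
    mn V (j * β) ≤ 2 * q * (1 / ((((j : ℤ) * b) % q : ℤ) : ℝ) +
      1 / ((q : ℝ) - ((((j : ℤ) * b) % q : ℤ) : ℝ))) := by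
  have hq0 : (0 : ℤ) < q := by exact_mod_cast hq
  have hqR : (0 : ℝ) < q := by exact_mod_cast hq
  have hVR : (1 : ℝ) ≤ V := by exact_mod_cast hV
  obtain ⟨r, hr⟩ : ∃ r : ℤ, r = ((j : ℤ) * b) % q := ⟨_, rfl⟩
  rw [← hr]
  have hr0 : 0 < r := by
    have h1 : 0 ≤ r := by rw [hr]; exact Int.emod_nonneg _ hq0.ne'
    rcases h1.lt_or_eq with h | h
    · exact h
    · exact absurd (Int.dvd_of_emod_eq_zero (by rw [← hr, ← h])) hj
  have hrq : r < q := by rw [hr]; exact Int.emod_lt_of_pos _ hq0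
  obtain ⟨n, hn⟩ : ∃ n : ℤ, n = round ((j : ℝ) * β) := ⟨_, rfl⟩
  obtain ⟨m, hm⟩ : ∃ m : ℤ, m = (j : ℤ) * b - n * q := ⟨_, rfl⟩
  have hmt : ∃ t : ℤ, m = r + q * t := by
    refine ⟨((j : ℤ) * b) / q - n, ?_⟩
    have h1 := Int.emod_add_mul_ediv ((j : ℤ) * b) q
    rw [hm, hr]
    linear_combination -h1
  obtain ⟨t, ht⟩ := hmt
  have hr0R : (0 : ℝ) < r := by exact_mod_cast hr0
  have hrqR : (0 : ℝ) < (q : ℝ) - r := by
    have : ((r : ℤ) : ℝ) < ((q : ℤ) : ℝ) := by exact_mod_cast hrq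
    have h2 : ((q : ℤ) : ℝ) = (q : ℝ) := by norm_cast
    linarith
  have hm1 : 1 / |(m : ℝ)| ≤ 1 / (r : ℝ) + 1 / ((q : ℝ) - r) ∧ (1 : ℝ) ≤ |(m : ℝ)| := by
    rcases le_or_gt 0 t with h | h
    · have h1 : r ≤ m := by rw [ht]; nlinarith
      have h2 : (r : ℝ) ≤ m := by exact_mod_cast h1
      have h3 : (1 : ℝ) ≤ r := by exact_mod_cast hr0
      rw [abs_of_nonneg (by linarith)]
      refine ⟨?_, by linarith⟩
      have h4 : 1 / (m : ℝ) ≤ 1 / (r : ℝ) := one_div_le_one_div_of_le hr0R h2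
      have h5 : 0 ≤ 1 / ((q : ℝ) - r) := by positivity
      linarith
    · have h1 : m ≤ r - q := by rw [ht]; nlinarith
      have h2 : (m : ℝ) ≤ (r : ℝ) - q := by exact_mod_cast h1
      have h3 : (r : ℝ) + 1 ≤ q := by exact_mod_cast hrq
      rw [abs_of_nonpos (by linarith)]
      refine ⟨?_, by linarith⟩
      have h4 : 1 / (-(m : ℝ)) ≤ 1 / ((q : ℝ) - r) := one_div_le_one_div_of_le hrqR (by linarith)
      have h5 : 0 ≤ 1 / (r : ℝ) := by positivity
      linarith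
  obtain ⟨hm2, hm3⟩ := hm1
  have hjR : (j : ℝ) ≤ V := by exact_mod_cast hjV
  have hj0 : (0 : ℝ) ≤ j := Nat.cast_nonneg _
  have hjd : |(j : ℝ) * (β - b / q)| ≤ 1 / (2 * q) := by
    rw [abs_mul, abs_of_nonneg hj0]
    calc (j : ℝ) * |β - b / q| ≤ V * (1 / ((2 * V + 1) * q)) := by gcongr
      _ ≤ 1 / (2 * q) := by
        rw [mul_one_div, div_le_div_iff₀ (by positivity) (by positivity)]
        nlinarith
  have hc : |(m : ℝ)| / (2 * q) ≤ nd ((j : ℝ) * β) := by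
    unfold nd
    rw [← hn]
    have e1 : (j : ℝ) * β - n = m / q + (j : ℝ) * (β - b / q) := by
      rw [hm]
      push_cast
      field_simp
      ring
    rw [e1]
    have e2 : |(m : ℝ) / q| - |(j : ℝ) * (β - b / q)| ≤ |(m : ℝ) / q + (j : ℝ) * (β - b / q)| := by
      have := abs_sub_abs_le_abs_sub ((m : ℝ) / q) (-((j : ℝ) * (β - b / q)))
      rwa [abs_neg, sub_neg_eq_add] at this
    have e3 : |(m : ℝ) / q| = |(m : ℝ)| / q := by rw [abs_div, abs_of_pos hqR]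
    rw [e3] at e2
    have e4 : |(m : ℝ)| / (2 * q) = |(m : ℝ)| / q - |(m : ℝ)| / (2 * q) := by
      field_simp
      ring
    have e5 : 1 / (2 * (q : ℝ)) ≤ |(m : ℝ)| / (2 * q) := by gcongr
    linarith
  have hpos : 0 < |(m : ℝ)| / (2 * q) := by positivity
  calc mn V ((j : ℝ) * β) ≤ 1 / (|(m : ℝ)| / (2 * q)) := mn_le_of hV hpos hc
    _ = 2 * q * (1 / |(m : ℝ)|) := by rw [one_div_div]; ring
    _ ≤ 2 * q * (1 / (r : ℝ) + 1 / ((q : ℝ) - r)) := by gcongr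

theorem mult {V : ℕ} {β : ℝ} {b : ℤ} {q : ℕ} (hq : 1 ≤ q) (hV : 1 ≤ V)
    (hδ : |β - b / q| ≤ 1 / ((2 * V + 1) * q)) (i : ℕ) (hi : 1 ≤ i) (hiV : i ≤ V)
    (c : ℝ) (hc : 0 < c) (h : c ≤ nd (q * β)) : mn V (((q * i : ℕ) : ℝ) * β) ≤ 1 / (i * c) := by
  have hqR : (0 : ℝ) < q := by exact_mod_cast hq
  have hVR : (1 : ℝ) ≤ V := by exact_mod_cast hV
  have hiR : (1 : ℝ) ≤ i := by exact_mod_cast hi
  have hiVR : (i : ℝ) ≤ V := by exact_mod_cast hiV
  obtain ⟨e, he⟩ : ∃ e : ℝ, e = q * β - b := ⟨_, rfl⟩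
  have h1 : c ≤ |e| := by
    rw [he]
    exact h.trans (nd_le _ _)
  have h2 : |e| ≤ 1 / (2 * V + 1) := by
    have e1 : e = q * (β - b / q) := by
      rw [he]
      field_simp
    rw [e1, abs_mul, abs_of_pos hqR]
    calc (q : ℝ) * |β - b / q| ≤ q * (1 / ((2 * V + 1) * q)) := by gcongr
      _ = 1 / (2 * V + 1) := by field_simp
  have h3 : (i : ℝ) * |e| ≤ 1 / 2 := by
    calc (i : ℝ) * |e| ≤ V * (1 / (2 * V + 1)) := by gcongr
      _ ≤ 1 / 2 := by
        rw [mul_one_div, div_le_div_iff₀ (by positivity) (by positivity)]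
        linarith
  have hpos : 0 < (i : ℝ) * c := by positivity
  refine mn_le_of hV hpos ?_
  have h4 : (i : ℝ) * c ≤ i * |e| := by gcongr
  unfold nd
  obtain ⟨n, hn⟩ : ∃ n : ℤ, n = round (((q * i : ℕ) : ℝ) * β) := ⟨_, rfl⟩
  rw [← hn]
  have e1 : ((q * i : ℕ) : ℝ) * β - n = ((i * b - n : ℤ) : ℝ) + i * e := by
    rw [he]
    push_cast
    ring
  rw [e1]
  have e6 : |(i : ℝ) * e| = i * |e| := by rw [abs_mul, abs_of_pos (by linarith)]
  by_cases hz : (i * b - n : ℤ) = 0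
  · rw [hz]
    push_cast
    rw [zero_add, e6]
    exact h4
  · have h5 : (1 : ℝ) ≤ |((i * b - n : ℤ) : ℝ)| := by
      have : (1 : ℤ) ≤ |(i * b - n : ℤ)| := Int.one_le_abs hz
      exact_mod_cast this
    have e2 : |((i * b - n : ℤ) : ℝ)| - |(i : ℝ) * e| ≤ |((i * b - n : ℤ) : ℝ) + i * e| := by
      have := abs_sub_abs_le_abs_sub (((i * b - n : ℤ) : ℝ)) (-((i : ℝ) * e))
      rwa [abs_neg, sub_neg_eq_add] at this
    rw [e6] at e2
    linarith

/-- the harmonic sum -/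
theorem harm_le (n : ℕ) : ∑ i ∈ Icc 1 n, 1 / (i : ℝ) ≤ 1 + Real.log n := by
  have h1 := harmonic_le_one_add_log n
  have h2 : ((harmonic n : ℚ) : ℝ) = ∑ i ∈ Icc 1 n, 1 / (i : ℝ) := by
    rw [harmonic_eq_sum_Icc]
    push_cast
    refine sum_congr rfl fun i _ => ?_
    rw [one_div]
  rw [← h2]
  exact h1

/-- the elements of one residue class -/
theorem card_class {V q : ℕ} {b : ℤ} (hcop : IsCoprime b (q : ℤ)) (r : ℤ) :
    (((Icc 1 V).filter (fun j : ℕ => ((j : ℤ) * b) % q = r)).card : ℝ) ≤ (V : ℝ) / q + 1 := by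
  have h1 : ((Icc 1 V).filter (fun j : ℕ => ((j : ℤ) * b) % q = r)).card ≤ (range (V / q + 1)).card := by
    refine card_le_card_of_injOn (fun j => j / q) ?_ ?_
    · intro j hj
      have hj' := mem_coe.1 hj
      rw [mem_filter, mem_Icc] at hj'
      rw [mem_coe, mem_range]
      have := Nat.div_le_div_right (c := q) hj'.1.2
      show j / q < V / q + 1
      omega
    · intro j hj j' hj' hd
      have hj1 := (mem_filter.1 (mem_coe.1 hj)).2
      have hj2 := (mem_filter.1 (mem_coe.1 hj')).2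
      have h2 : (q : ℤ) ∣ (j : ℤ) * b - (j' : ℤ) * b := by
        apply Int.dvd_of_emod_eq_zero
        rw [Int.sub_emod, hj1, hj2, sub_self, Int.zero_emod]
      have h3 : (q : ℤ) ∣ b * ((j : ℤ) - j') := by
        have e : b * ((j : ℤ) - j') = (j : ℤ) * b - (j' : ℤ) * b := by ring
        rw [e]; exact h2
      have h4 : (q : ℤ) ∣ (j : ℤ) - j' := hcop.symm.dvd_of_dvd_mul_left h3
      have h5 : j ≡ j' [MOD q] := by
        have := (Int.modEq_iff_dvd.2 (dvd_sub_comm.1 h4))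
        exact (Int.natCast_modEq_iff.1 this)
      have h6 : j / q = j' / q := hd
      have h7 : j % q = j' % q := h5
      rw [← Nat.div_add_mod j q, ← Nat.div_add_mod j' q, h6, h7]
  rw [card_range] at h1
  have h2 : ((V / q : ℕ) : ℝ) ≤ (V : ℝ) / q := Nat.cast_div_le
  have h3 : (((Icc 1 V).filter (fun j : ℕ => ((j : ℤ) * b) % q = r)).card : ℝ) ≤
      ((V / q + 1 : ℕ) : ℝ) := by exact_mod_cast h1
  push_cast at h3
  linarith

theorem harm_le' (V n : ℕ) (h : n ≤ V) : ∑ i ∈ Icc 1 n, 1 / (i : ℝ) ≤ 1 + Real.log V := by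
  refine (sum_le_sum_of_subset_of_nonneg (Icc_subset_Icc_right h) ?_).trans (harm_le V)
  intro i _ _
  positivity

/-- the multiples of `q` -/
theorem part1 {V : ℕ} {L β : ℝ} {b : ℤ} {q : ℕ} (hq : 1 ≤ q) (hV : 1 ≤ V) (hL : 1 ≤ L)
    (hδ : |β - b / q| ≤ 1 / ((2 * V + 1) * q))
    (h0 : (q : ℝ) ≤ L → L ^ 2 / (V : ℝ) ^ 2 < nd (q * β)) :
    ∑ j ∈ (Icc 1 V).filter (fun j => q ∣ j), mn V (j * β) ≤
      (V : ℝ) ^ 2 * (1 + Real.log V) / L := by
  have hqR : (0 : ℝ) < q := by exact_mod_cast hq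
  have hVR : (1 : ℝ) ≤ V := by exact_mod_cast hV
  have hlog : 0 ≤ Real.log V := Real.log_nonneg hVR
  have hset : (Icc 1 V).filter (fun j => q ∣ j) = (Icc 1 (V / q)).image (fun i => q * i) := by
    ext j
    rw [mem_filter, mem_image, mem_Icc]
    constructor
    · rintro ⟨⟨h1, h2⟩, i, rfl⟩
      refine ⟨i, ?_, rfl⟩
      rw [mem_Icc]
      refine ⟨?_, ?_⟩
      · rcases Nat.eq_zero_or_pos i with h | h
        · rw [h, mul_zero] at h1
          omega
        · exact h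
      · rw [Nat.le_div_iff_mul_le (by omega)]
        rwa [mul_comm]
    · rintro ⟨i, hi, rfl⟩
      rw [mem_Icc] at hi
      refine ⟨⟨?_, ?_⟩, dvd_mul_right _ _⟩
      · exact Nat.one_le_iff_ne_zero.2 (Nat.mul_ne_zero (by omega) (by omega))
      · have := (Nat.le_div_iff_mul_le (by omega : 0 < q)).1 hi.2
        rwa [mul_comm] at this
  rw [hset, sum_image (fun x _ y _ h => Nat.eq_of_mul_eq_mul_left (by omega : 0 < q) h)]
  have hVq : V / q ≤ V := Nat.div_le_self _ _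
  rcases le_or_gt (q : ℝ) L with hc | hc
  · have hnd := h0 hc
    have hcpos : 0 < L ^ 2 / (V : ℝ) ^ 2 := by positivity
    calc ∑ i ∈ Icc 1 (V / q), mn V (((q * i : ℕ) : ℝ) * β)
        ≤ ∑ i ∈ Icc 1 (V / q), (V : ℝ) ^ 2 / L ^ 2 * (1 / (i : ℝ)) := by
          refine sum_le_sum fun i hi => ?_
          rw [mem_Icc] at hi
          have hi0 : (0 : ℝ) < i := by exact_mod_cast hi.1
          refine (mult hq hV hδ i hi.1 (hi.2.trans hVq) _ hcpos hnd.le).trans (le_of_eq ?_)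
          field_simp
      _ = (V : ℝ) ^ 2 / L ^ 2 * ∑ i ∈ Icc 1 (V / q), 1 / (i : ℝ) := by rw [mul_sum]
      _ ≤ (V : ℝ) ^ 2 / L ^ 2 * (1 + Real.log V) := by
          have := harm_le' V _ hVq
          gcongr
      _ ≤ (V : ℝ) ^ 2 * (1 + Real.log V) / L := by
          rw [div_mul_eq_mul_div]
          have h1 : L ≤ L ^ 2 := by nlinarith
          have h2 : 0 ≤ (V : ℝ) ^ 2 * (1 + Real.log V) := by positivity
          exact div_le_div_of_nonneg_left h2 (by linarith) h1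
  · calc ∑ i ∈ Icc 1 (V / q), mn V (((q * i : ℕ) : ℝ) * β)
        ≤ ∑ _i ∈ Icc 1 (V / q), (V : ℝ) := sum_le_sum fun i _ => mn_le_V _ _
      _ = ((V / q : ℕ) : ℝ) * V := by rw [sum_const, Nat.card_Icc, nsmul_eq_mul, Nat.add_sub_cancel]
      _ ≤ ((V : ℝ) / q) * V := by
          have : ((V / q : ℕ) : ℝ) ≤ (V : ℝ) / q := Nat.cast_div_le
          gcongr
      _ ≤ ((V : ℝ) / L) * V := by gcongr
      _ ≤ (V : ℝ) ^ 2 * (1 + Real.log V) / L := by
          have e1 : ((V : ℝ) / L) * V = (V : ℝ) ^ 2 * 1 / L := by ring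
          rw [e1]
          gcongr
          linarith

/-- the other summands -/
theorem part2 {V : ℕ} {L β : ℝ} {b : ℤ} {q : ℕ} (hq : 1 ≤ q) (hqV : q ≤ 2 * V) (hV : 1 ≤ V)
    (hL : 1 ≤ L) (hLV : L ^ 2 ≤ V) (hcop : IsCoprime b (q : ℤ))
    (hδ : |β - b / q| ≤ 1 / ((2 * V + 1) * q)) :
    ∑ j ∈ (Icc 1 V).filter (fun j => ¬ q ∣ j), mn V (j * β) ≤
      24 * ((V : ℝ) ^ 2 * (1 + Real.log V) / L) := by
  have hqR : (0 : ℝ) < q := by exact_mod_cast hq
  have hq0 : (0 : ℤ) < q := by exact_mod_cast hq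
  have hVR : (1 : ℝ) ≤ V := by exact_mod_cast hV
  have hlog : 0 ≤ Real.log V := Real.log_nonneg hVR
  have hqVR : (q : ℝ) ≤ 2 * V := by exact_mod_cast hqV
  let G : ℕ → ℝ := fun r => 2 * q * (1 / (r : ℝ) + 1 / ((q : ℝ) - r))
  let ρ : ℕ → ℕ := fun j => (((j : ℤ) * b) % q).toNat
  have hρ : ∀ j : ℕ, ((ρ j : ℕ) : ℤ) = ((j : ℤ) * b) % q := fun j =>
    Int.toNat_of_nonneg (Int.emod_nonneg _ hq0.ne')
  have hnd : ∀ j : ℕ, ¬ q ∣ j → ¬ (q : ℤ) ∣ (j : ℤ) * b := by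
    intro j hj h
    exact hj (Int.natCast_dvd_natCast.1 (hcop.symm.dvd_of_dvd_mul_right h))
  have hmaps : ∀ j ∈ (Icc 1 V).filter (fun j => ¬ q ∣ j), ρ j ∈ Icc 1 (q - 1) := by
    intro j hj
    have h1 := hnd j (mem_filter.1 hj).2
    have h2 : 0 ≤ ((j : ℤ) * b) % q := Int.emod_nonneg _ hq0.ne'
    have h3 : ((j : ℤ) * b) % q < q := Int.emod_lt_of_pos _ hq0
    have h4 : ((j : ℤ) * b) % q ≠ 0 := fun h => h1 (Int.dvd_of_emod_eq_zero h)
    have h5 := hρ j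
    rw [mem_Icc]
    omega
  have hG : ∀ r ∈ Icc 1 (q - 1), 0 ≤ G r := by
    intro r hr
    rw [mem_Icc] at hr
    have h1 : (r : ℝ) + 1 ≤ q := by
      have : r + 1 ≤ q := by omega
      exact_mod_cast this
    have h2 : 0 < (q : ℝ) - r := by linarith
    show 0 ≤ 2 * (q : ℝ) * (1 / (r : ℝ) + 1 / ((q : ℝ) - r))
    positivity
  have hsum : ∑ r ∈ Icc 1 (q - 1), G r ≤ 2 * q * (2 * (2 + Real.log V)) := by
    have e1 : ∑ r ∈ Icc 1 (q - 1), 1 / ((q : ℝ) - r) = ∑ r ∈ Icc 1 (q - 1), 1 / (r : ℝ) := by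
      refine sum_nbij' (fun r => q - r) (fun r => q - r) ?_ ?_ ?_ ?_ ?_
      · intro r hr
        rw [mem_Icc] at hr ⊢
        omega
      · intro r hr
        rw [mem_Icc] at hr ⊢
        omega
      · intro r hr
        rw [mem_Icc] at hr
        show q - (q - r) = r
        omega
      · intro r hr
        rw [mem_Icc] at hr
        show q - (q - r) = r
        omega
      · intro r hr
        rw [mem_Icc] at hr
        have : r ≤ q := by omega
        show 1 / ((q : ℝ) - r) = 1 / ((q - r : ℕ) : ℝ)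
        rw [Nat.cast_sub this]
    have e2 : ∑ r ∈ Icc 1 (q - 1), 1 / (r : ℝ) ≤ 2 + Real.log V := by
      have h1 := harm_le' (2 * V) (q - 1) (by omega)
      have h2 : Real.log ((2 * V : ℕ) : ℝ) = Real.log 2 + Real.log V := by
        push_cast
        rw [Real.log_mul (by norm_num) (by linarith)]
      have h3 : Real.log 2 ≤ 1 := by
        have := Real.log_le_sub_one_of_pos (show (0 : ℝ) < 2 by norm_num)
        linarith
      linarith
    show ∑ r ∈ Icc 1 (q - 1), 2 * (q : ℝ) * (1 / (r : ℝ) + 1 / ((q : ℝ) - r)) ≤ _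
    rw [← mul_sum, sum_add_distrib, e1]
    have : ∑ r ∈ Icc 1 (q - 1), 1 / (r : ℝ) + ∑ r ∈ Icc 1 (q - 1), 1 / (r : ℝ) ≤
        2 * (2 + Real.log V) := by linarith
    gcongr
  calc ∑ j ∈ (Icc 1 V).filter (fun j => ¬ q ∣ j), mn V (j * β)
      ≤ ∑ j ∈ (Icc 1 V).filter (fun j => ¬ q ∣ j), G (ρ j) := by
        refine sum_le_sum fun j hj => ?_
        rw [mem_filter, mem_Icc] at hj
        have h1 := nonmult hq hV hδ j hj.1.2 (hnd j hj.2)
        rw [← hρ j] at h1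
        push_cast at h1
        exact h1
    _ = ∑ r ∈ Icc 1 (q - 1), ∑ j ∈ ((Icc 1 V).filter (fun j => ¬ q ∣ j)).filter
          (fun j => ρ j = r), G (ρ j) := (sum_fiberwise_of_maps_to hmaps _).symm
    _ ≤ ∑ r ∈ Icc 1 (q - 1), ((V : ℝ) / q + 1) * G r := by
        refine sum_le_sum fun r hr => ?_
        have h1 : ∑ j ∈ ((Icc 1 V).filter (fun j => ¬ q ∣ j)).filter
            (fun j => ρ j = r), G (ρ j) = ((((Icc 1 V).filter (fun j => ¬ q ∣ j)).filter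
            (fun j => ρ j = r)).card : ℝ) * G r := by
          rw [← nsmul_eq_mul, ← sum_const]
          refine sum_congr rfl fun j hj => ?_
          rw [(mem_filter.1 hj).2]
        rw [h1]
        refine mul_le_mul_of_nonneg_right ?_ (hG r hr)
        refine le_trans ?_ (card_class (V := V) hcop (r : ℤ))
        have h2 : ((Icc 1 V).filter (fun j => ¬ q ∣ j)).filter (fun j => ρ j = r) ⊆
            (Icc 1 V).filter (fun j : ℕ => ((j : ℤ) * b) % q = (r : ℤ)) := by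
          intro j hj
          rw [mem_filter, mem_filter] at hj
          rw [mem_filter]
          refine ⟨hj.1.1, ?_⟩
          rw [← hρ j, hj.2]
        exact_mod_cast card_le_card h2
    _ = ((V : ℝ) / q + 1) * ∑ r ∈ Icc 1 (q - 1), G r := by rw [mul_sum]
    _ ≤ ((V : ℝ) / q + 1) * (2 * q * (2 * (2 + Real.log V))) := by gcongr
    _ = 4 * (V + q) * (2 + Real.log V) := by
        field_simp
        ring
    _ ≤ 4 * (V + 2 * V) * (2 * (1 + Real.log V)) := by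
        gcongr
        linarith
    _ = 24 * ((V : ℝ) * (1 + Real.log V)) := by ring
    _ ≤ 24 * ((V : ℝ) ^ 2 * (1 + Real.log V) / L) := by
        have h1 : L ≤ V := by nlinarith
        have h2 : (V : ℝ) ≤ (V : ℝ) ^ 2 / L := by
          rw [le_div_iff₀ (by linarith)]
          nlinarith
        have h3 : (V : ℝ) * (1 + Real.log V) ≤ (V : ℝ) ^ 2 / L * (1 + Real.log V) := by gcongr
        have h4 : (V : ℝ) ^ 2 / L * (1 + Real.log V) = (V : ℝ) ^ 2 * (1 + Real.log V) / L := by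
          ring
        rw [h4] at h3
        linarith

theorem t_W1 : S_W1 := by
  intro V L β hV hL hLV h0
  have hVR : (1 : ℝ) ≤ V := by exact_mod_cast hV
  have hlog : 0 ≤ Real.log V := Real.log_nonneg hVR
  obtain ⟨x, hx1, hx2⟩ := Real.exists_rat_abs_sub_le_and_den_le β (n := 2 * V) (by omega)
  have hq : 1 ≤ x.den := x.den_pos
  have hcop : IsCoprime x.num (x.den : ℤ) := by
    rw [Int.isCoprime_iff_gcd_eq_one]
    exact x.reduced
  have hδ : |β - x.num / x.den| ≤ 1 / ((2 * V + 1) * x.den) := by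
    have e : (x : ℝ) = x.num / x.den := Rat.cast_def x
    rw [e] at hx1
    push_cast at hx1
    exact hx1
  have h1 := part1 hq hV hL hδ (fun h => h0 _ hq h)
  have h2 := part2 hq hx2 hV hL hLV hcop hδ
  have h3 : 0 ≤ (V : ℝ) ^ 2 * (1 + Real.log V) / L := by positivity
  calc ∑ j ∈ Icc 1 V, mn V (j * β)
      = ∑ j ∈ (Icc 1 V).filter (fun j => x.den ∣ j), mn V (j * β) +
        ∑ j ∈ (Icc 1 V).filter (fun j => ¬ x.den ∣ j), mn V (j * β) :=
        (sum_filter_add_sum_filter_not _ _ _).symm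
    _ ≤ (V : ℝ) ^ 2 * (1 + Real.log V) / L + 24 * ((V : ℝ) ^ 2 * (1 + Real.log V) / L) :=
        add_le_add h1 h2
    _ = 25 * ((V : ℝ) ^ 2 * (1 + Real.log V) / L) := by ring
    _ ≤ 100 * ((V : ℝ) ^ 2 * (1 + Real.log V) / L) := by linarith
    _ = 100 * (V : ℝ) ^ 2 * (1 + Real.log V) / L := by ring

end Pool.Agent.L0h95.CL
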